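import Pool.Agent.Q291.MK.Stm2

/-! # Project MK (helper291), jobs EXPM and SEQ -/

namespace Pool.Agent.Q150.MK

open Pool.Agent.Q291.MK

theorem pow_le_one_add {z : ℝ} (hz : 0 ≤ z) {p : ℕ} (hp : p ≤ 8) : z ^ p ≤ 1 + z ^ 8 := by
  rcases le_total z 1 with h | h
  · have h1 : z ^ p ≤ 1 := pow_le_one₀ hz h
    have h2 : 0 ≤ z ^ 8 := by positivity
    linarith
  · have h1 : z ^ p ≤ z ^ 8 := pow_le_pow_right₀ h hp
    linarith

theorem add_pow_le_two {s t : ℝ} (hs : 0 ≤ s) (ht : 0 ≤ t) {p : ℕ} (hp : p ≤ 8) :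
    (s + t) ^ p ≤ 256 * (s ^ p + t ^ p) := by
  have h2 : (2 : ℝ) ^ p ≤ 256 := by
    calc (2 : ℝ) ^ p ≤ 2 ^ 8 := pow_le_pow_right₀ (by norm_num) hp
      _ = 256 := by norm_num
  have hsp : 0 ≤ s ^ p := pow_nonneg hs p
  have htp : 0 ≤ t ^ p := pow_nonneg ht p
  rcases le_total s t with h | h
  · calc (s + t) ^ p ≤ (2 * t) ^ p := pow_le_pow_left₀ (by positivity) (by linarith) p
      _ = 2 ^ p * t ^ p := mul_pow _ _ _
      _ ≤ 256 * t ^ p := mul_le_mul_of_nonneg_right h2 htp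
      _ ≤ _ := by linarith
  · calc (s + t) ^ p ≤ (2 * s) ^ p := pow_le_pow_left₀ (by positivity) (by linarith) p
      _ = 2 ^ p * s ^ p := mul_pow _ _ _
      _ ≤ 256 * s ^ p := mul_le_mul_of_nonneg_right h2 hsp
      _ ≤ _ := by linarith

section
variable {a : ℕ → ℝ} (hA : AM a)
include hA

theorem PBx : PB (fun k => (k : ℝ) - mean a) := PB.id.sub (PB.const _)

theorem Ex : E a (fun k => (k : ℝ) - mean a) = 0 := by
  rw [hA.E_sub PB.id (PB.const _), hA.toLaw.E_const]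
  exact sub_self _

theorem m8_nonneg : 0 ≤ m8 a := by
  have := hA.E_mono (PB.const 0) ((PBx hA).pow 8) (fun k => by positivity)
  rwa [hA.toLaw.E_const] at this

theorem mom1 : E2 a (fun K L => (K:ℝ) + L - 2 * mean a) = 0 := by
  have e : (fun K L : ℕ => (K:ℝ) + L - 2 * mean a) =
      fun (K L : ℕ) => ((K:ℝ) - mean a) + ((L:ℝ) - mean a) := by funext K L; ring
  have p := PBx hA
  rw [e, hA.E2_add (PB2.fst p) (PB2.snd p), hA.E2_fst p, hA.E2_snd p, Ex hA, add_zero]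

theorem mom2 : E2 a (fun K L => ((K:ℝ) + L - 2 * mean a) ^ 2) = 2 * vr a := by
  have e : (fun K L : ℕ => ((K:ℝ) + L - 2 * mean a) ^ 2) =
      fun (K L : ℕ) => (((K:ℝ) - mean a) ^ 2 + ((L:ℝ) - mean a) ^ 2) +
        2 * (((K:ℝ) - mean a) * ((L:ℝ) - mean a)) := by funext K L; ring
  have p := PBx hA
  have p2 := p.pow 2
  rw [e, hA.E2_add ((PB2.fst p2).add (PB2.snd p2)) ((PB2.const 2).mul ((PB2.fst p).mul (PB2.snd p))),
    hA.E2_add (PB2.fst p2) (PB2.snd p2), hA.E2_fst p2, hA.E2_snd p2, E2_const_mul, hA.E2_mul p p,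
    Ex hA]
  change vr a + vr a + _ = _
  ring

theorem mom2' : E2 a (fun K L => ((K:ℝ) - L) ^ 2) = 2 * vr a := by
  have e : (fun K L : ℕ => ((K:ℝ) - L) ^ 2) =
      fun (K L : ℕ) => (((K:ℝ) - mean a) ^ 2 + ((L:ℝ) - mean a) ^ 2) +
        (-2) * (((K:ℝ) - mean a) * ((L:ℝ) - mean a)) := by funext K L; ring
  have p := PBx hA
  have p2 := p.pow 2
  rw [e, hA.E2_add ((PB2.fst p2).add (PB2.snd p2))
      ((PB2.const (-2)).mul ((PB2.fst p).mul (PB2.snd p))),
    hA.E2_add (PB2.fst p2) (PB2.snd p2), hA.E2_fst p2, hA.E2_snd p2, E2_const_mul, hA.E2_mul p p,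
    Ex hA]
  change vr a + vr a + _ = _
  ring

theorem mom3 : E2 a (fun K L => ((K:ℝ) + L - 2 * mean a) ^ 3) = 2 * k3 a := by
  have e : (fun K L : ℕ => ((K:ℝ) + L - 2 * mean a) ^ 3) =
      fun (K L : ℕ) => (((K:ℝ) - mean a) ^ 3 + ((L:ℝ) - mean a) ^ 3) +
        3 * (((K:ℝ) - mean a) ^ 2 * ((L:ℝ) - mean a) + ((K:ℝ) - mean a) * ((L:ℝ) - mean a) ^ 2) := by
    funext K L; ring
  have p := PBx hA
  have p2 := p.pow 2
  have p3 := p.pow 3
  rw [e, hA.E2_add ((PB2.fst p3).add (PB2.snd p3)) ((PB2.const 3).mul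
      (((PB2.fst p2).mul (PB2.snd p)).add ((PB2.fst p).mul (PB2.snd p2)))),
    hA.E2_add (PB2.fst p3) (PB2.snd p3), hA.E2_fst p3, hA.E2_snd p3, E2_const_mul,
    hA.E2_add ((PB2.fst p2).mul (PB2.snd p)) ((PB2.fst p).mul (PB2.snd p2)), hA.E2_mul p2 p,
    hA.E2_mul p p2, Ex hA]
  change k3 a + k3 a + _ = _
  ring

theorem mom3' : E2 a (fun K L => ((K:ℝ) + L - 2 * mean a) * ((K:ℝ) - L) ^ 2) = 2 * k3 a := by
  have e : (fun K L : ℕ => ((K:ℝ) + L - 2 * mean a) * ((K:ℝ) - L) ^ 2) =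
      fun (K L : ℕ) => (((K:ℝ) - mean a) ^ 3 + ((L:ℝ) - mean a) ^ 3) +
        (-1) * (((K:ℝ) - mean a) ^ 2 * ((L:ℝ) - mean a) +
          ((K:ℝ) - mean a) * ((L:ℝ) - mean a) ^ 2) := by
    funext K L; ring
  have p := PBx hA
  have p2 := p.pow 2
  have p3 := p.pow 3
  rw [e, hA.E2_add ((PB2.fst p3).add (PB2.snd p3)) ((PB2.const (-1)).mul
      (((PB2.fst p2).mul (PB2.snd p)).add ((PB2.fst p).mul (PB2.snd p2)))),
    hA.E2_add (PB2.fst p3) (PB2.snd p3), hA.E2_fst p3, hA.E2_snd p3, E2_const_mul,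
    hA.E2_add ((PB2.fst p2).mul (PB2.snd p)) ((PB2.fst p).mul (PB2.snd p2)), hA.E2_mul p2 p,
    hA.E2_mul p p2, Ex hA]
  change k3 a + k3 a + _ = _
  ring

end

/-- JOB EXPM -/
theorem t_EXPM : P_EXPM := by
  intro C3 C8 a ha hm
  have hA := ha.toAM
  have p := PBx hA
  set μ := mean a with hμ
  have hμ0 : 0 < μ := by linarith
  have h8 : 0 ≤ m8 a := m8_nonneg hA
  refine ⟨?_, ?_, mom1 hA, mom2 hA, mom3 hA, mom2' hA, mom3' hA⟩
  · intro q hq
    set r := √μ with hr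
    have hr0 : 0 < r := Real.sqrt_pos.2 hμ0
    have hr8 : r ^ 8 = μ ^ 4 := by
      have : r ^ 2 = μ := Real.sq_sqrt hμ0.le
      calc r ^ 8 = (r ^ 2) ^ 4 := by ring
        _ = _ := by rw [this]
    have hpt : ∀ x : ℝ, |x| ^ q ≤ r ^ q + r ^ q / μ ^ 4 * x ^ 8 := by
      intro x
      have h1 := pow_le_one_add (z := |x| / r) (by positivity) hq
      have h2 : (|x| / r) ^ 8 = x ^ 8 / μ ^ 4 := by
        rw [div_pow, hr8, ← abs_pow, abs_of_nonneg (by positivity)]
      rw [h2, div_pow, div_le_iff₀ (by positivity)] at h1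
      calc |x| ^ q ≤ (1 + x ^ 8 / μ ^ 4) * r ^ q := h1
        _ = _ := by ring
    have hE : E a (fun k => |(k:ℝ) - μ| ^ q) ≤ r ^ q * (1 + C8) := by
      have h1 := hA.E_mono (p.abs.pow q) ((PB.const (r ^ q)).add
        ((PB.const (r ^ q / μ ^ 4)).mul (p.pow 8))) (fun k => hpt ((k:ℝ) - μ))
      rw [hA.E_add (PB.const _) ((PB.const _).mul (p.pow 8)), hA.toLaw.E_const, E_const_mul] at h1
      have h2 : E a (fun k => ((k:ℝ) - μ) ^ 8) = m8 a := rfl
      rw [h2] at h1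
      refine h1.trans ?_
      have h3 : r ^ q / μ ^ 4 * m8 a ≤ r ^ q / μ ^ 4 * (C8 * μ ^ 4) :=
        mul_le_mul_of_nonneg_left ha.m8_le (by positivity)
      have h4 : r ^ q / μ ^ 4 * (C8 * μ ^ 4) = r ^ q * C8 := by field_simp
      linarith
    have h5 := hA.E2_mono (((PB2.fst p.abs).add (PB2.snd p.abs)).pow q)
      ((PB2.const 256).mul ((PB2.fst (p.abs.pow q)).add (PB2.snd (p.abs.pow q))))
      (fun K L => add_pow_le_two (abs_nonneg ((K:ℝ) - μ)) (abs_nonneg ((L:ℝ) - μ)) hq)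
    rw [E2_const_mul, hA.E2_add (PB2.fst (p.abs.pow q)) (PB2.snd (p.abs.pow q)),
      hA.E2_fst (p.abs.pow q), hA.E2_snd (p.abs.pow q)] at h5
    calc _ ≤ 256 * (E a (fun k => |(k:ℝ) - μ| ^ q) + E a (fun k => |(k:ℝ) - μ| ^ q)) := h5
      _ ≤ 256 * (r ^ q * (1 + C8) + r ^ q * (1 + C8)) := by linarith
      _ = _ := by ring
  · intro φ B hφ hB hφB
    have hif : PB2 (fun K L => if (K:ℝ) + L < 3 / 4 * μ then |φ K L| else 0) :=
      hφ.abs.of_le fun K L => by
        split_ifs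
        · rw [abs_abs]
        · rw [abs_zero]; exact abs_nonneg _
    have p8 := p.pow 8
    have h1 := hA.E2_mono hif ((PB2.const (B * (4 ^ 16 / μ ^ 16))).mul
      ((PB2.fst p8).mul (PB2.snd p8))) (fun K L => by
        have hK : (0:ℝ) ≤ K := Nat.cast_nonneg K
        have hL : (0:ℝ) ≤ L := Nat.cast_nonneg L
        split_ifs with h
        · have key : ∀ z : ℝ, 0 ≤ z → z < 3 / 4 * μ → 1 ≤ (4 / μ) ^ 8 * (z - μ) ^ 8 := by
            intro z hz hz2
            have h3 : 1 ≤ 4 / μ * (μ - z) := by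
              rw [div_mul_eq_mul_div, le_div_iff₀ hμ0]
              linarith
            have h4 : 1 ≤ (4 / μ * (μ - z)) ^ 8 := one_le_pow₀ h3
            calc (1:ℝ) ≤ (4 / μ * (μ - z)) ^ 8 := h4
              _ = _ := by ring
          have k1 := key K hK (by linarith)
          have k2 := key L hL (by linarith)
          have k3 : 1 ≤ ((4 / μ) ^ 8 * ((K:ℝ) - μ) ^ 8) * ((4 / μ) ^ 8 * ((L:ℝ) - μ) ^ 8) := by
            nlinarith
          calc |φ K L| ≤ B := hφB K L h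
            _ = B * 1 := (mul_one B).symm
            _ ≤ B * (((4 / μ) ^ 8 * ((K:ℝ) - μ) ^ 8) * ((4 / μ) ^ 8 * ((L:ℝ) - μ) ^ 8)) :=
              mul_le_mul_of_nonneg_left k3 hB
            _ = _ := by
              rw [div_pow]
              field_simp
        · positivity)
    rw [E2_const_mul, hA.E2_mul p8 p8] at h1
    have h2 : E a (fun k => ((k:ℝ) - μ) ^ 8) = m8 a := rfl
    rw [h2] at h1
    refine h1.trans ?_
    have h3 : m8 a * m8 a ≤ (C8 * μ ^ 4) * (C8 * μ ^ 4) :=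
      mul_le_mul ha.m8_le ha.m8_le h8 (h8.trans ha.m8_le)
    calc B * (4 ^ 16 / μ ^ 16) * (m8 a * m8 a) ≤
        B * (4 ^ 16 / μ ^ 16) * ((C8 * μ ^ 4) * (C8 * μ ^ 4)) :=
          mul_le_mul_of_nonneg_left h3 (by positivity)
      _ = _ := by field_simp

/-- JOB SEQ -/
theorem t_SEQ : P_SEQ := by
  intro D M hD hM m hm μ s hs hμ hμm hflow
  set G : ℕ → ℝ := fun n => μ n - 2 * s n with hG
  have hM0 : 0 < M := by linarith
  -- one step
  have hstep : ∀ n < m, |G n - G (n + 1) - 2| ≤ D / μ n := by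
    intro n hn
    have := hflow n hn
    rw [← abs_neg]
    convert this using 2
    simp only [hG]
    ring
  have hhalf : ∀ n < m, D / μ n ≤ 1 / 2 := by
    intro n hn
    have h1 := hμ n hn
    rw [div_le_iff₀ (by linarith)]
    linarith
  -- lower bound
  have hlow : ∀ j ≤ m, -2 + 3 / 2 * (j:ℝ) ≤ G (m - j) := by
    intro j
    induction j with
    | zero =>
      intro _
      have := (hs m le_rfl).2
      simp only [hG, Nat.sub_zero]
      push_cast
      linarith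
    | succ j ih =>
      intro hj
      have h1 := ih (by omega)
      have h2 : m - (j + 1) < m := by omega
      have h3 := hstep _ h2
      have h4 := hhalf _ h2
      have h5 : m - (j + 1) + 1 = m - j := by omega
      rw [h5] at h3
      have h6 := (abs_le.1 h3).1
      push_cast
      linarith
  have hbig : ∀ j, 1 ≤ j → j ≤ m → (j:ℝ) ≤ μ (m - j) := by
    intro j h1 h2
    have h3 := hlow j h2
    have h4 := (hs (m - j) (by omega)).1
    have h5 := hμ (m - j) (by omega)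
    have h6 : G (m - j) ≤ μ (m - j) := by simp only [hG]; linarith
    rcases le_total (j:ℝ) 4 with h7 | h7
    · linarith
    · linarith
  -- the sum
  have hsum : ∀ j ≤ m, |G (m - j) - G m - 2 * j| ≤ D * ∑ i ∈ Finset.range j, 1 / ((i:ℝ) + 1) := by
    intro j
    induction j with
    | zero => intro _; simp
    | succ j ih =>
      intro hj
      have h1 := ih (by omega)
      have h2 : m - (j + 1) < m := by omega
      have h3 := hstep _ h2
      have h5 : m - (j + 1) + 1 = m - j := by omega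
      rw [h5] at h3
      have h6 : D / μ (m - (j + 1)) ≤ D * (1 / ((j:ℝ) + 1)) := by
        have h7 := hbig (j + 1) (by omega) hj
        push_cast at h7
        rw [mul_one_div]
        exact div_le_div_of_nonneg_left hD (by positivity) h7
      rw [Finset.sum_range_succ, mul_add]
      have h8 : G (m - (j + 1)) - G m - 2 * ((j + 1 : ℕ) : ℝ) =
          (G (m - j) - G m - 2 * j) + (G (m - (j + 1)) - G (m - j) - 2) := by
        push_cast; ring
      rw [h8]
      exact (abs_add_le _ _).trans (by linarith)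
  have hharm : ∑ i ∈ Finset.range m, 1 / ((i:ℝ) + 1) ≤ 1 + Real.log m := by
    have h1 := harmonic_le_one_add_log m
    have h2 : ((harmonic m : ℚ) : ℝ) = ∑ i ∈ Finset.range m, 1 / ((i:ℝ) + 1) := by
      rw [harmonic]
      push_cast
      exact Finset.sum_congr rfl fun i _ => by rw [one_div]
    rw [← h2]
    exact h1
  have h1 := hsum m le_rfl
  rw [Nat.sub_self] at h1
  have h2 : D * ∑ i ∈ Finset.range m, 1 / ((i:ℝ) + 1) ≤ D * (1 + Real.log m) :=
    mul_le_mul_of_nonneg_left hharm hD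
  have h3 : μ 0 - μ m - 2 * m = (G 0 - G m - 2 * m) + 2 * (s 0 - s m) := by
    simp only [hG]; ring
  have h4 : |2 * (s 0 - s m)| ≤ 2 := by
    rw [abs_le]
    have a1 := hs 0 (by omega)
    have a2 := hs m le_rfl
    constructor <;> linarith [a1.1, a1.2, a2.1, a2.2]
  rw [h3]
  exact (abs_add_le _ _).trans (by linarith)

end Pool.Agent.Q150.MK
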