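import Pool.Agent.Q291.MK.Stm2

/-! # Project MK (helper291), job EXPA -/

namespace Pool.Agent.Q150.MK

open Pool.Agent.Q291.MK

/-- JOB EXPA -/
theorem t_EXPA : P_RHO → P_EXPM → P_EXPA := by
  intro hR hE
  obtain ⟨D, hD, hR⟩ := hR
  refine ⟨(2 * D + 5) * 4 ^ 16, by positivity, fun C3 C8 hC8 a ha hm => ?_⟩
  have hA := ha.toAM
  set μ := mean a with hμ
  have hμ0 : 0 < μ := by linarith
  obtain ⟨I0, c0, hI0, hc0, hb1, hb2⟩ := hR μ hm
  have hDle : D ≤ (2 * D + 5) * 4 ^ 16 := by nlinarith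
  refine ⟨I0, c0, hI0, hc0.trans (div_le_div_of_nonneg_right hDle hμ0.le), ?_⟩
  intro φ B hφ hB hφB
  have hEM := (hE C3 C8 a ha (by linarith)).2.1 φ B hφ hB hφB
  rw [← hμ] at hEM
  -- the polynomial and the error
  set P : ℕ → ℕ → ℝ := fun K L => 1 + c0 - 3 / 4 * (((K:ℝ) + L - 2 * μ) / μ) +
        15 / 32 * (((K:ℝ) + L - 2 * μ) / μ) ^ 2 with hP
  set Q : ℕ → ℕ → ℝ := fun K L => |(K:ℝ) + L - 2 * μ| ^ 3 / μ ^ 3 +
        |(K:ℝ) + L - 2 * μ| / μ ^ 2 + 1 / μ ^ 2 with hQ
  set J : ℕ → ℕ → ℝ := fun K L => if (K:ℝ) + L < 3 / 4 * μ then |φ K L| else 0 with hJ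
  have bX : PB2 (fun K L => (K:ℝ) + L - 2 * μ) :=
    ((PB2.fst PB.id).add (PB2.snd PB.id)).sub (PB2.const _)
  have bXd : PB2 (fun K L => ((K:ℝ) + L - 2 * μ) / μ) := bX.div_const μ
  have bP : PB2 P := ((PB2.const (1 + c0)).sub ((PB2.const (3 / 4)).mul bXd)).add
    ((PB2.const (15 / 32)).mul (bXd.pow 2))
  have bQ : PB2 Q := (((bX.abs.pow 3).div_const (μ ^ 3)).add (bX.abs.div_const (μ ^ 2))).add
    (PB2.const (1 / μ ^ 2))
  have bJ : PB2 J := hφ.abs.of_le fun K L => by
    simp only [hJ]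
    split_ifs
    · rw [abs_abs]
    · rw [abs_zero]; exact abs_nonneg _
  have hQ0 : ∀ K L, 0 ≤ Q K L := fun K L => by simp only [hQ]; positivity
  have hJ0 : ∀ K L, 0 ≤ J K L := fun K L => by
    simp only [hJ]
    split_ifs
    · exact abs_nonneg _
    · exact le_rfl
  have hJE : E2 a J ≤ 4 ^ 16 * B * C8 ^ 2 / μ ^ 8 := hEM
  have hJend : (2 * D + 5) * μ ^ 2 * E2 a J ≤ (2 * D + 5) * 4 ^ 16 * B * C8 ^ 2 / μ ^ 6 := by
    calc (2 * D + 5) * μ ^ 2 * E2 a J ≤ (2 * D + 5) * μ ^ 2 * (4 ^ 16 * B * C8 ^ 2 / μ ^ 8) :=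
          mul_le_mul_of_nonneg_left hJE (by positivity)
      _ = _ := by field_simp
  have hρ : ∀ K L : ℕ, 3 / 4 * μ ≤ (K:ℝ) + L → I (K + L) / I0 ≤ 9 / 2 ∧
      |I (K + L) / I0 - P K L| ≤ D * Q K L := by
    intro K L h
    have h1 := hb2 (K + L) (by push_cast; exact h)
    push_cast at h1
    exact h1
  constructor
  · have e1 : E2 a (fun K L => I (K + L) * φ K L) / I0 =
        E2 a (fun K L => (I (K + L) / I0) * φ K L) := by
      rw [div_eq_inv_mul, ← E2_const_mul]
      congr 1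
      funext K L
      ring
    have bI : PB2 (fun K L => (I (K + L) / I0) * φ K L) := (PB2.I.div_const I0).mul hφ
    have e2 := hA.E2_sub bI (bP.mul hφ)
    have e3 : E2 a (fun K L => P K L * φ K L) = E2 a (fun K L => (1 + c0 -
        3 / 4 * (((K:ℝ) + L - 2 * μ) / μ) +
        15 / 32 * (((K:ℝ) + L - 2 * μ) / μ) ^ 2) * φ K L) := rfl
    rw [e1, ← e3, ← e2]
    refine (hA.abs_E2_le (bI.sub (bP.mul hφ))).trans ?_
    have h1 := hA.E2_mono (bI.sub (bP.mul hφ)).abs
      (((PB2.const D).mul (hφ.abs.mul bQ)).add ((PB2.const ((2 * D + 5) * μ ^ 2)).mul bJ))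
      (fun K L => by
        have hK : (0:ℝ) ≤ K := Nat.cast_nonneg K
        have hL : (0:ℝ) ≤ L := Nat.cast_nonneg L
        have e4 : I (K + L) / I0 * φ K L - P K L * φ K L = (I (K + L) / I0 - P K L) * φ K L := by
          ring
        rw [e4, abs_mul]
        rcases le_or_gt (3 / 4 * μ) ((K:ℝ) + L) with h | h
        · have h2 := (hρ K L h).2
          have h3 : |I (K + L) / I0 - P K L| * |φ K L| ≤ D * Q K L * |φ K L| :=
            mul_le_mul_of_nonneg_right h2 (abs_nonneg _)
          have h4 : 0 ≤ (2 * D + 5) * μ ^ 2 * J K L := mul_nonneg (by positivity) (hJ0 K L)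
          calc _ ≤ D * Q K L * |φ K L| := h3
            _ = D * (|φ K L| * Q K L) := by ring
            _ ≤ _ := by linarith
        · have hJv : J K L = |φ K L| := by simp only [hJ]; rw [if_pos h]
          have h5 := hb1 (K + L)
          have h6 : 0 < I (K + L) / I0 := div_pos (I_pos _) hI0
          have h7 : |((K:ℝ) + L - 2 * μ) / μ| ≤ 2 := by
            rw [abs_div, abs_of_pos hμ0, div_le_iff₀ hμ0, abs_le]
            constructor <;> linarith
          have h8 : |P K L| ≤ D + 5 := by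
            have h9 : |c0| ≤ D := hc0.trans (by
              rw [div_le_iff₀ hμ0]
              nlinarith)
            set z := ((K:ℝ) + L - 2 * μ) / μ with hz
            have h10 : z ^ 2 ≤ 4 := by
              rw [← sq_abs]
              nlinarith [abs_nonneg z]
            have h11 := abs_le.1 h7
            have h12 := abs_le.1 h9
            have h13 : 0 ≤ z ^ 2 := sq_nonneg z
            change |1 + c0 - 3 / 4 * z + 15 / 32 * z ^ 2| ≤ D + 5
            rw [abs_le]
            constructor <;> linarith [h11.1, h11.2, h12.1, h12.2]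
          have h14 : |I (K + L) / I0 - P K L| ≤ (2 * D + 5) * μ ^ 2 := by
            have h15 : |I (K + L) / I0 - P K L| ≤ |I (K + L) / I0| + |P K L| := abs_sub _ _
            rw [abs_of_pos h6] at h15
            have h16 : D + 5 ≤ (D + 5) * μ ^ 2 := by
              have : 1 ≤ μ ^ 2 := one_le_pow₀ (by linarith)
              nlinarith
            nlinarith
          rw [hJv]
          have h17 : 0 ≤ D * (|φ K L| * Q K L) :=
            mul_nonneg hD.le (mul_nonneg (abs_nonneg _) (hQ0 K L))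
          have h18 := mul_le_mul_of_nonneg_right h14 (abs_nonneg (φ K L))
          linarith)
    refine h1.trans ?_
    rw [hA.E2_add ((PB2.const D).mul (hφ.abs.mul bQ))
      ((PB2.const ((2 * D + 5) * μ ^ 2)).mul bJ), E2_const_mul, E2_const_mul]
    have h2 : 0 ≤ E2 a (fun K L => |φ K L| * Q K L) := by
      have := hA.E2_mono (PB2.const 0) (hφ.abs.mul bQ)
        (fun K L => mul_nonneg (abs_nonneg _) (hQ0 K L))
      rwa [hA.E2_cst] at this
    exact add_le_add (mul_le_mul_of_nonneg_right hDle h2) hJend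
  · have e1 : E2 a (fun K L => I (K + L) * |φ K L|) / I0 =
        E2 a (fun K L => (I (K + L) / I0) * |φ K L|) := by
      rw [div_eq_inv_mul, ← E2_const_mul]
      congr 1
      funext K L
      ring
    have bI : PB2 (fun K L => (I (K + L) / I0) * |φ K L|) := (PB2.I.div_const I0).mul hφ.abs
    rw [e1]
    have h1 := hA.E2_mono bI (((PB2.const (9 / 2)).mul hφ.abs).add
      ((PB2.const ((2 * D + 5) * μ ^ 2)).mul bJ)) (fun K L => by
        rcases le_or_gt (3 / 4 * μ) ((K:ℝ) + L) with h | h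
        · have h2 := (hρ K L h).1
          have h4 : 0 ≤ (2 * D + 5) * μ ^ 2 * J K L := mul_nonneg (by positivity) (hJ0 K L)
          have h3 := mul_le_mul_of_nonneg_right h2 (abs_nonneg (φ K L))
          linarith
        · have hJv : J K L = |φ K L| := by simp only [hJ]; rw [if_pos h]
          have h5 := hb1 (K + L)
          have h14 : I (K + L) / I0 ≤ (2 * D + 5) * μ ^ 2 := by nlinarith [sq_nonneg μ]
          rw [hJv]
          have h18 := mul_le_mul_of_nonneg_right h14 (abs_nonneg (φ K L))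
          have := abs_nonneg (φ K L)
          linarith)
    refine h1.trans ?_
    rw [hA.E2_add ((PB2.const (9 / 2)).mul hφ.abs)
      ((PB2.const ((2 * D + 5) * μ ^ 2)).mul bJ), E2_const_mul, E2_const_mul]
    linarith

end Pool.Agent.Q150.MK
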