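import Pool.Agent.Q291.MK.Stm

/-! # Project MK (helper291), jobs S8 and WW -/

namespace Pool.Agent.Q150.MK

open Pool.Agent.Q291.MK

theorem poly8 (x y : ℝ) : (x + y) ^ 8 ≤ x ^ 8 + y ^ 8 + 8 * (x ^ 7 * y + x * y ^ 7) +
    128 * (x ^ 6 * y ^ 2 + x ^ 2 * y ^ 6) := by
  have h1 : (x + y) ^ 8 = x ^ 8 + y ^ 8 + 8 * (x ^ 7 * y + x * y ^ 7) +
    (28 * (x ^ 6 * y ^ 2 + x ^ 2 * y ^ 6) + 56 * (x ^ 5 * y ^ 3 + x ^ 3 * y ^ 5) +
      70 * (x ^ 4 * y ^ 4)) := by ring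
  have h2 : x ^ 5 * y ^ 3 + x ^ 3 * y ^ 5 ≤ x ^ 6 * y ^ 2 + x ^ 2 * y ^ 6 := by
    have e : x ^ 6 * y ^ 2 + x ^ 2 * y ^ 6 - (x ^ 5 * y ^ 3 + x ^ 3 * y ^ 5) =
      (x * y) ^ 2 * ((x - y) ^ 2 * ((x + y / 2) ^ 2 + 3 / 4 * y ^ 2)) := by ring
    have : 0 ≤ (x * y) ^ 2 * ((x - y) ^ 2 * ((x + y / 2) ^ 2 + 3 / 4 * y ^ 2)) := by positivity
    linarith
  have h3 : 2 * (x ^ 4 * y ^ 4) ≤ x ^ 6 * y ^ 2 + x ^ 2 * y ^ 6 := by
    have e : x ^ 6 * y ^ 2 + x ^ 2 * y ^ 6 - 2 * (x ^ 4 * y ^ 4) =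
      (x * y) ^ 2 * (x ^ 2 - y ^ 2) ^ 2 := by ring
    have : 0 ≤ (x * y) ^ 2 * (x ^ 2 - y ^ 2) ^ 2 := by positivity
    linarith
  have h4 : 0 ≤ x ^ 6 * y ^ 2 + x ^ 2 * y ^ 6 := by positivity
  rw [h1]
  linarith

theorem amgm6 {μ x : ℝ} (hμ : 0 ≤ μ) : μ * x ^ 6 ≤ x ^ 8 / 256 + 256 ^ 3 * μ ^ 4 := by
  have e : ∀ t : ℝ, 0 ≤ t → μ * t ^ 3 ≤ t ^ 4 / 256 + 256 ^ 3 * μ ^ 4 := by
    intro t ht
    rcases le_total (256 * μ) t with h | h
    · have h1 : 256 * μ * t ^ 3 ≤ t * t ^ 3 := mul_le_mul_of_nonneg_right h (by positivity)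
      have h2 : 0 ≤ (256 : ℝ) ^ 3 * μ ^ 4 := by positivity
      nlinarith
    · have h1 : t ^ 3 ≤ (256 * μ) ^ 3 := pow_le_pow_left₀ ht h 3
      have h2 : μ * t ^ 3 ≤ μ * (256 * μ) ^ 3 := mul_le_mul_of_nonneg_left h1 hμ
      have h3 : 0 ≤ t ^ 4 / 256 := by positivity
      nlinarith
  have := e (x ^ 2) (by positivity)
  calc μ * x ^ 6 = μ * (x ^ 2) ^ 3 := by ring
    _ ≤ _ := this
    _ = _ := by ring

/-- JOB S8 -/
theorem t_S8 : P_SLAW → P_S8 := by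
  intro hS
  refine ⟨256 ^ 4, by norm_num, fun C8 hC8 C3 a ha hm => ?_⟩
  obtain ⟨-, h1⟩ := hS a ha.toAM
  have hA := ha.toAM
  set μ := mean a with hμ
  have hx : PB (fun k => (k : ℝ) - μ) := PB.id.sub (PB.const μ)
  have hEx : E a (fun k => (k : ℝ) - μ) = 0 := by
    rw [hA.E_sub PB.id (PB.const μ), hA.toLaw.E_const]
    exact sub_self _
  have hmS : mean (S a) = 2 * μ := by
    unfold mean
    rw [(h1 _ PB.id).2]
    have e : (fun K L : ℕ => ((K + L : ℕ) : ℝ)) = fun (K L : ℕ) => (K : ℝ) + (L : ℝ) := by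
      funext K L; push_cast; ring
    rw [e, hA.E2_add (PB2.fst PB.id) (PB2.snd PB.id), hA.E2_fst PB.id, hA.E2_snd PB.id]
    change mean a + mean a = _
    rw [← hμ]; ring
  have h8 : m8 (S a) = E2 a (fun K L => (((K : ℝ) - μ) + ((L : ℝ) - μ)) ^ 8) := by
    unfold m8
    have hP : PB (fun k => ((k : ℝ) - mean (S a)) ^ 8) := (PB.id.sub (PB.const _)).pow 8
    rw [(h1 _ hP).2, hmS]
    congr 1
    funext K L
    push_cast
    ring
  have hx8 : E a (fun k => ((k : ℝ) - μ) ^ 8) = m8 a := rfl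
  have hx2 : E a (fun k => ((k : ℝ) - μ) ^ 2) = vr a := rfl
  have hx6 : μ * E a (fun k => ((k : ℝ) - μ) ^ 6) ≤ m8 a / 256 + 256 ^ 3 * μ ^ 4 := by
    have e1 : E a (fun k => μ * ((k : ℝ) - μ) ^ 6) = μ * E a (fun k => ((k : ℝ) - μ) ^ 6) :=
      E_const_mul _ _
    have e2 : E a (fun k => (1 / 256) * ((k : ℝ) - μ) ^ 8 + 256 ^ 3 * μ ^ 4) =
        m8 a / 256 + 256 ^ 3 * μ ^ 4 := by
      rw [hA.E_add ((PB.const (1/256)).mul (hx.pow 8)) (PB.const _), E_const_mul,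
        hA.toLaw.E_const, hx8]
      ring
    rw [← e1, ← e2]
    refine hA.E_mono ((PB.const μ).mul (hx.pow 6))
      (((PB.const (1/256)).mul (hx.pow 8)).add (PB.const _)) fun k => ?_
    have := amgm6 (μ := μ) (x := (k : ℝ) - μ) (by linarith)
    linarith
  have hE6 : 0 ≤ E a (fun k => ((k : ℝ) - μ) ^ 6) := by
    have := hA.E_mono (PB.const 0) (hx.pow 6) (fun k => by positivity)
    rwa [hA.toLaw.E_const] at this
  have hvr : vr a ≤ μ := ha.vr_le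
  have hle : m8 (S a) ≤ E2 a (fun K L => (((K : ℝ) - μ) ^ 8 + ((L : ℝ) - μ) ^ 8) +
      (8 * (((K : ℝ) - μ) ^ 7 * ((L : ℝ) - μ) + ((K : ℝ) - μ) * ((L : ℝ) - μ) ^ 7) +
      128 * (((K : ℝ) - μ) ^ 6 * ((L : ℝ) - μ) ^ 2 + ((K : ℝ) - μ) ^ 2 * ((L : ℝ) - μ) ^ 6))) := by
    rw [h8]
    refine hA.E2_mono (((PB2.fst hx).add (PB2.snd hx)).pow 8) ?_ fun K L => ?_
    · exact ((PB2.fst (hx.pow 8)).add (PB2.snd (hx.pow 8))).add
        (((PB2.const 8).mul (((PB2.fst (hx.pow 7)).mul (PB2.snd hx)).add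
          ((PB2.fst hx).mul (PB2.snd (hx.pow 7))))).add
        ((PB2.const 128).mul (((PB2.fst (hx.pow 6)).mul (PB2.snd (hx.pow 2))).add
          ((PB2.fst (hx.pow 2)).mul (PB2.snd (hx.pow 6))))))
    · have := poly8 ((K : ℝ) - μ) ((L : ℝ) - μ)
      linarith
  have hval : E2 a (fun K L => (((K : ℝ) - μ) ^ 8 + ((L : ℝ) - μ) ^ 8) +
      (8 * (((K : ℝ) - μ) ^ 7 * ((L : ℝ) - μ) + ((K : ℝ) - μ) * ((L : ℝ) - μ) ^ 7) +
      128 * (((K : ℝ) - μ) ^ 6 * ((L : ℝ) - μ) ^ 2 + ((K : ℝ) - μ) ^ 2 * ((L : ℝ) - μ) ^ 6))) =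
      2 * m8 a + 256 * (E a (fun k => ((k : ℝ) - μ) ^ 6) * vr a) := by
    have p8 := hx.pow 8
    have p7 := hx.pow 7
    have p6 := hx.pow 6
    have p2 := hx.pow 2
    rw [hA.E2_add ((PB2.fst p8).add (PB2.snd p8))
        (((PB2.const 8).mul (((PB2.fst p7).mul (PB2.snd hx)).add
          ((PB2.fst hx).mul (PB2.snd p7)))).add
        ((PB2.const 128).mul (((PB2.fst p6).mul (PB2.snd p2)).add
          ((PB2.fst p2).mul (PB2.snd p6))))),
      hA.E2_add (PB2.fst p8) (PB2.snd p8), hA.E2_fst p8, hA.E2_snd p8,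
      hA.E2_add ((PB2.const 8).mul (((PB2.fst p7).mul (PB2.snd hx)).add
          ((PB2.fst hx).mul (PB2.snd p7))))
        ((PB2.const 128).mul (((PB2.fst p6).mul (PB2.snd p2)).add
          ((PB2.fst p2).mul (PB2.snd p6)))),
      E2_const_mul, E2_const_mul,
      hA.E2_add ((PB2.fst p7).mul (PB2.snd hx)) ((PB2.fst hx).mul (PB2.snd p7)),
      hA.E2_add ((PB2.fst p6).mul (PB2.snd p2)) ((PB2.fst p2).mul (PB2.snd p6)),
      hA.E2_mul p7 hx, hA.E2_mul hx p7, hA.E2_mul p6 p2, hA.E2_mul p2 p6, hEx, hx8, hx2]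
    ring
  rw [hval] at hle
  have h9 : E a (fun k => ((k : ℝ) - μ) ^ 6) * vr a ≤ m8 a / 256 + 256 ^ 3 * μ ^ 4 := by
    calc E a (fun k => ((k : ℝ) - μ) ^ 6) * vr a ≤ E a (fun k => ((k : ℝ) - μ) ^ 6) * μ :=
          mul_le_mul_of_nonneg_left hvr hE6
      _ = μ * E a (fun k => ((k : ℝ) - μ) ^ 6) := mul_comm _ _
      _ ≤ _ := hx6
  have h10 : m8 a ≤ C8 * μ ^ 4 := ha.m8_le
  have hμ4 : 0 ≤ μ ^ 4 := by positivity
  have h11 : (256 : ℝ) ^ 4 * μ ^ 4 ≤ C8 * μ ^ 4 := mul_le_mul_of_nonneg_right hC8 hμ4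
  have h12 : 0 ≤ C8 * μ ^ 4 := mul_nonneg (le_trans (by norm_num) hC8) hμ4
  rw [hmS]
  calc m8 (S a) ≤ 2 * m8 a + 256 * (m8 a / 256 + 256 ^ 3 * μ ^ 4) := by linarith
    _ = 3 * m8 a + 256 ^ 4 * μ ^ 4 := by ring
    _ ≤ 4 * (C8 * μ ^ 4) := by linarith
    _ ≤ C8 * (2 * μ) ^ 4 := by
        have : C8 * (2 * μ) ^ 4 = 16 * (C8 * μ ^ 4) := by ring
        linarith

/-- a lower bound for `I` -/
theorem I_lower (n : ℕ) : 2 * (1 / ((n : ℝ) + 2) ^ 2) ≤ I n := by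
  have h : 2 / (((n : ℝ) + 1) * ((n : ℝ) + 2)) ≤ I n := by
    induction n with
    | zero => simp [I]
    | succ n ih =>
      rw [I_succ]
      have h0 : (0 : ℝ) ≤ n := Nat.cast_nonneg n
      push_cast
      calc 2 / (((n : ℝ) + 1 + 1) * ((n : ℝ) + 1 + 2))
          ≤ 2 / (((n : ℝ) + 1) * ((n : ℝ) + 2)) * ((2 * n + 3) / (2 * n + 6)) := by
            rw [div_mul_div_comm, div_le_div_iff₀ (by positivity) (by positivity)]
            nlinarith [mul_nonneg h0 h0, mul_nonneg (mul_nonneg h0 h0) h0]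
        _ ≤ _ := mul_le_mul_of_nonneg_right ih (by positivity)
  refine le_trans ?_ h
  have h0 : (0 : ℝ) ≤ n := Nat.cast_nonneg n
  rw [mul_one_div, div_le_div_iff₀ (by positivity) (by positivity)]
  nlinarith

theorem PB.inv3 : PB (fun k => 1 / ((k : ℝ) + 3)) := (PB.const 1).of_le fun k => by
  have h0 : (0 : ℝ) ≤ k := Nat.cast_nonneg k
  rw [abs_of_nonneg (by positivity), div_le_one (by positivity)]
  linarith

/-- JOB WW -/
theorem t_WW : P_WW := by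
  intro C3 C8
  refine ⟨6 + 768 * |C8|, 10, by positivity, le_refl _, fun a ha hm => ?_⟩
  have hA := ha.toAM
  set μ := mean a with hμ
  have hμ0 : 0 < μ := by linarith
  have hx : PB (fun k => (k : ℝ) - μ) := PB.id.sub (PB.const μ)
  -- the lower bound for `E I`
  have hEI : 1 / μ ^ 2 ≤ E a I := by
    set m := μ + 2 with hm2
    have hm0 : 0 < m := by linarith
    have h1 : ∀ k : ℕ, 6 / m ^ 2 + (-4 / m ^ 3) * ((k : ℝ) + 2) ≤ I k := by
      intro k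
      refine le_trans ?_ (I_lower k)
      have hz : (0 : ℝ) < (k : ℝ) + 2 := by positivity
      set z := (k : ℝ) + 2 with hz'
      have e : 2 * (1 / z ^ 2) - (6 / m ^ 2 + (-4 / m ^ 3) * z) =
          2 * (z - m) ^ 2 * (2 * z + m) / (z ^ 2 * m ^ 3) := by
        field_simp
        ring
      have : 0 ≤ 2 * (z - m) ^ 2 * (2 * z + m) / (z ^ 2 * m ^ 3) := by positivity
      linarith
    have h2 := hA.E_mono ((PB.const (6 / m ^ 2)).add ((PB.const (-4 / m ^ 3)).mul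
      (PB.id.add (PB.const 2)))) PB.I h1
    rw [hA.E_add (PB.const _) ((PB.const _).mul (PB.id.add (PB.const 2))), hA.toLaw.E_const,
      E_const_mul, hA.E_add PB.id (PB.const 2), hA.toLaw.E_const] at h2
    have h3 : E a (fun k => (k : ℝ)) = μ := rfl
    rw [h3, ← hm2] at h2
    have h4 : 6 / m ^ 2 + -4 / m ^ 3 * m = 2 / m ^ 2 := by field_simp; ring
    rw [h4] at h2
    refine le_trans ?_ h2
    rw [div_le_div_iff₀ (by positivity) (by positivity), hm2]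
    nlinarith
  have hEI0 : 0 < E a I := lt_of_lt_of_le (by positivity) hEI
  -- the upper bound for `E (I / (k + 3))`
  have hup : E a (fun k => I k * (1 / ((k : ℝ) + 3))) ≤
      2 / μ * E a I + 256 / μ ^ 8 * m8 a := by
    have e : E a (fun k => 2 / μ * I k + 256 / μ ^ 8 * ((k : ℝ) - μ) ^ 8) =
        2 / μ * E a I + 256 / μ ^ 8 * m8 a := by
      rw [hA.E_add ((PB.const _).mul PB.I) ((PB.const _).mul (hx.pow 8)), E_const_mul,
        E_const_mul]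
      rfl
    rw [← e]
    refine hA.E_mono (PB.I.mul PB.inv3) (((PB.const _).mul PB.I).add
      ((PB.const _).mul (hx.pow 8))) fun k => ?_
    have hk : (0 : ℝ) ≤ k := Nat.cast_nonneg k
    have hI := I_pos k
    rcases le_total (μ / 2) k with h | h
    · have h1 : 1 / ((k : ℝ) + 3) ≤ 2 / μ := by
        rw [div_le_div_iff₀ (by positivity) hμ0]
        linarith
      have h2 : 0 ≤ 256 / μ ^ 8 * ((k : ℝ) - μ) ^ 8 := by positivity
      have h3 : I k * (1 / ((k : ℝ) + 3)) ≤ I k * (2 / μ) := mul_le_mul_of_nonneg_left h1 hI.le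
      linarith
    · have h1 : I k * (1 / ((k : ℝ) + 3)) ≤ 1 := by
        have h4 : 1 / ((k : ℝ) + 3) ≤ 1 := by
          rw [div_le_one (by positivity)]
          linarith
        have h5 : (0 : ℝ) ≤ 1 / ((k : ℝ) + 3) := by positivity
        have := I_le_one k
        nlinarith
      have h2 : 1 ≤ 256 / μ ^ 8 * ((k : ℝ) - μ) ^ 8 := by
        have h3 : (μ / 2) ^ 8 ≤ (μ - k) ^ 8 := pow_le_pow_left₀ (by positivity) (by linarith) 8
        have h4 : ((k : ℝ) - μ) ^ 8 = (μ - k) ^ 8 := by ring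
        rw [h4, div_mul_eq_mul_div, le_div_iff₀ (by positivity)]
        have h5 : (μ / 2) ^ 8 = μ ^ 8 / 256 := by ring
        rw [h5] at h3
        linarith
      have h3 : 0 ≤ 2 / μ * I k := by positivity
      linarith
  have h8 : m8 a ≤ |C8| * μ ^ 4 := ha.m8_le.trans
    (mul_le_mul_of_nonneg_right (le_abs_self _) (by positivity))
  have h9 : 256 / μ ^ 8 * m8 a ≤ 256 * |C8| / μ * E a I := by
    calc 256 / μ ^ 8 * m8 a ≤ 256 / μ ^ 8 * (|C8| * μ ^ 4) :=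
          mul_le_mul_of_nonneg_left h8 (by positivity)
      _ = 256 * |C8| * (1 / μ ^ 4) := by field_simp
      _ ≤ 256 * |C8| * (1 / μ * (1 / μ ^ 2)) := by
          refine mul_le_mul_of_nonneg_left ?_ (by positivity)
          rw [div_mul_div_comm, one_mul]
          refine div_le_div_of_nonneg_left (by norm_num) (by positivity) ?_
          nlinarith [pow_pos hμ0 3]
      _ ≤ 256 * |C8| * (1 / μ * E a I) := by
          refine mul_le_mul_of_nonneg_left ?_ (by positivity)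
          exact mul_le_mul_of_nonneg_left hEI (by positivity)
      _ = _ := by ring
  have hW : 1 - W a = 3 * E a (fun k => I k * (1 / ((k : ℝ) + 3))) / E a I := by
    unfold W
    have h1 : E a (fun k => I k * ((k : ℝ) / (k + 3))) =
        E a I - 3 * E a (fun k => I k * (1 / ((k : ℝ) + 3))) := by
      have h2 : (fun k : ℕ => I k * ((k : ℝ) / (k + 3))) =
          fun k => I k - 3 * (I k * (1 / ((k : ℝ) + 3))) := by
        funext k
        have hk : (0 : ℝ) ≤ k := Nat.cast_nonneg k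
        field_simp
        ring
      rw [h2, hA.E_sub PB.I ((PB.const 3).mul (PB.I.mul PB.inv3)), E_const_mul]
    rw [h1]
    field_simp
    ring
  have h10 : 1 - W a ≤ (6 + 768 * |C8|) / μ := by
    rw [hW, div_le_iff₀ hEI0]
    calc 3 * E a (fun k => I k * (1 / ((k : ℝ) + 3)))
        ≤ 3 * (2 / μ * E a I + 256 * |C8| / μ * E a I) := by linarith
      _ = _ := by ring
  linarith

end Pool.Agent.Q150.MK
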