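import Pool.Agent.Q291.MK.Stm2

/-! # Project MK (helper291), jobs TIGHT and WEAK -/

namespace Pool.Agent.Q150.MK

open Pool.Agent.Q291.MK Filter Topology

theorem tail {c f : ℕ → ℝ} (hc : ∀ k, 0 ≤ c k) (hs : Summable fun k => c k * (k:ℝ) ^ 2)
    (hf : Summable fun k => c k * f k) {N : ℕ} {K : ℝ} (hK : 0 ≤ K) (h0 : ∀ k, N ≤ k → 0 ≤ f k)
    (h1 : ∀ k, N ≤ k → f k ≤ K * (k:ℝ) ^ 2) :
    0 ≤ ∑' k, c k * f k - ∑ k ∈ Finset.range N, c k * f k ∧
    ∑' k, c k * f k - ∑ k ∈ Finset.range N, c k * f k ≤ K * ∑' k, c k * (k:ℝ) ^ 2 := by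
  have e := hf.sum_add_tsum_nat_add N
  have e2 := hs.sum_add_tsum_nat_add N
  have h2 : ∑' k, c k * f k - ∑ k ∈ Finset.range N, c k * f k = ∑' k, c (k + N) * f (k + N) := by
    rw [← e]; ring
  have h3 : 0 ≤ ∑ k ∈ Finset.range N, c k * (k:ℝ) ^ 2 :=
    Finset.sum_nonneg fun k _ => mul_nonneg (hc k) (sq_nonneg _)
  have hs' : Summable fun k => c (k + N) * ((k + N : ℕ):ℝ) ^ 2 := (summable_nat_add_iff N).2 hs
  have hf' : Summable fun k => c (k + N) * f (k + N) := (summable_nat_add_iff N).2 hf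
  rw [h2]
  constructor
  · exact tsum_nonneg fun k => mul_nonneg (hc _) (h0 _ (Nat.le_add_left _ _))
  · have h4 : ∑' k, c (k + N) * f (k + N) ≤ ∑' k, K * (c (k + N) * ((k + N : ℕ):ℝ) ^ 2) := by
      refine Summable.tsum_le_tsum (fun k => ?_) hf' (hs'.mul_left K)
      have := mul_le_mul_of_nonneg_left (h1 (k + N) (Nat.le_add_left _ _)) (hc (k + N))
      calc c (k + N) * f (k + N) ≤ c (k + N) * (K * ((k + N : ℕ):ℝ) ^ 2) := this
        _ = _ := by ring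
    rw [tsum_mul_left] at h4
    refine h4.trans (mul_le_mul_of_nonneg_left ?_ hK)
    rw [← e2]
    linarith

/-- JOB TIGHT -/
theorem t_TIGHT : P_TIGHT := by
  intro a b Q hA hQ hab
  have hb0 : ∀ k, 0 ≤ b k := fun k => ge_of_tendsto' (hab k) fun n => (hA n).nn k
  have hQ0 : 0 ≤ Q := by
    refine le_trans ?_ (hQ 0)
    exact tsum_nonneg fun k => mul_nonneg ((hA 0).nn k) (sq_nonneg _)
  have hs : ∀ n, Summable fun k => a n k * (k:ℝ) ^ 2 := fun n => (hA n).mom 2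
  have hs1 : ∀ n, Summable fun k => a n k * (k:ℝ) := fun n => by
    have := (hA n).mom 1
    simpa using this
  have hs0 : ∀ n, Summable fun k => a n k * (1:ℝ) := fun n => by
    have := (hA n).one.summable
    simpa using this
  -- second moments of `b`
  have hb2 : ∀ N, ∑ k ∈ Finset.range N, b k * (k:ℝ) ^ 2 ≤ Q := by
    intro N
    refine le_of_tendsto' (tendsto_finsetSum _ fun k _ => (hab k).mul_const _) fun n => ?_
    exact ((hs n).sum_le_tsum _ fun k _ => mul_nonneg ((hA n).nn k) (sq_nonneg _)).trans (hQ n)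
  have hsb : Summable fun k => b k * (k:ℝ) ^ 2 :=
    summable_of_sum_range_le (fun k => mul_nonneg (hb0 k) (sq_nonneg _)) hb2
  have hqb : ∑' k, b k * (k:ℝ) ^ 2 ≤ Q :=
    Real.tsum_le_of_sum_range_le (fun k => mul_nonneg (hb0 k) (sq_nonneg _)) hb2
  -- the mass
  have hpart : ∀ N n, ∑ k ∈ Finset.range N, a n k ≤ 1 := fun N n => by
    have := (hA n).one.summable.sum_le_tsum (Finset.range N) fun k _ => (hA n).nn k
    rwa [(hA n).one.tsum_eq] at this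
  have hpart' : ∀ N n : ℕ, 1 - Q / ((N:ℝ) + 1) ^ 2 ≤ ∑ k ∈ Finset.range (N + 1), a n k := by
    intro N n
    have h := (tail (hA n).nn (hs n) (f := fun _ => 1) (hs0 n) (N := N + 1)
      (K := 1 / ((N:ℝ) + 1) ^ 2) (by positivity) (fun k _ => zero_le_one) (fun k hk => by
        have h1 : ((N:ℝ) + 1) ≤ k := by exact_mod_cast hk
        rw [div_mul_eq_mul_div, one_mul, le_div_iff₀ (by positivity), one_mul]
        exact pow_le_pow_left₀ (by positivity) h1 2)).2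
    simp only [mul_one] at h
    rw [(hA n).one.tsum_eq] at h
    have h2 : 1 / ((N:ℝ) + 1) ^ 2 * ∑' k, a n k * (k:ℝ) ^ 2 ≤ 1 / ((N:ℝ) + 1) ^ 2 * Q :=
      mul_le_mul_of_nonneg_left (hQ n) (by positivity)
    have h3 : 1 / ((N:ℝ) + 1) ^ 2 * Q = Q / ((N:ℝ) + 1) ^ 2 := by ring
    linarith
  have hbp : ∀ N, ∑ k ∈ Finset.range N, b k ≤ 1 := fun N =>
    le_of_tendsto' (tendsto_finsetSum _ fun k _ => hab k) (hpart N)
  have hbp' : ∀ N : ℕ, 1 - Q / ((N:ℝ) + 1) ^ 2 ≤ ∑ k ∈ Finset.range (N + 1), b k := fun N =>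
    ge_of_tendsto' (tendsto_finsetSum _ fun k _ => hab k) (hpart' N)
  have hlim : Tendsto (fun N : ℕ => 1 - Q / ((N:ℝ) + 1) ^ 2) atTop (𝓝 1) := by
    have h1 : Tendsto (fun N : ℕ => ((N:ℝ) + 1) ^ 2) atTop atTop :=
      (tendsto_pow_atTop two_ne_zero).comp
        (tendsto_atTop_add_const_right _ _ tendsto_natCast_atTop_atTop)
    have h2 : Tendsto (fun N : ℕ => Q / ((N:ℝ) + 1) ^ 2) atTop (𝓝 0) := h1.const_div_atTop Q
    simpa using tendsto_const_nhds.sub h2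
  have hb1 : HasSum b 1 := by
    rw [hasSum_iff_tendsto_nat_of_nonneg hb0]
    rw [← tendsto_add_atTop_iff_nat 1]
    exact tendsto_of_tendsto_of_tendsto_of_le_of_le hlim tendsto_const_nhds hbp' fun N => hbp _
  have hsb1 : Summable fun k => b k * (k:ℝ) := by
    refine Summable.of_nonneg_of_le (fun k => mul_nonneg (hb0 k) (Nat.cast_nonneg k)) (fun k => ?_) hsb
    refine mul_le_mul_of_nonneg_left ?_ (hb0 k)
    have : ((k:ℝ)) ≤ (k:ℝ) ^ 2 := by
      exact_mod_cast Nat.le_self_pow two_ne_zero k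
    exact this
  refine ⟨⟨hb0, hb1⟩, hsb, hqb, ?_⟩
  -- the means
  have hta : ∀ N n : ℕ, |mean (a n) - ∑ k ∈ Finset.range (N + 1), a n k * (k:ℝ)| ≤ Q / ((N:ℝ) + 1) := by
    intro N n
    have h := tail (hA n).nn (hs n) (f := fun k => (k:ℝ)) (hs1 n) (N := N + 1)
      (K := 1 / ((N:ℝ) + 1)) (by positivity) (fun k _ => Nat.cast_nonneg k) (fun k hk => by
        have h1 : ((N:ℝ) + 1) ≤ k := by exact_mod_cast hk
        rw [div_mul_eq_mul_div, one_mul, le_div_iff₀ (by positivity), sq]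
        exact mul_le_mul_of_nonneg_left h1 (Nat.cast_nonneg k))
    have h2 : 1 / ((N:ℝ) + 1) * ∑' k, a n k * (k:ℝ) ^ 2 ≤ 1 / ((N:ℝ) + 1) * Q :=
      mul_le_mul_of_nonneg_left (hQ n) (by positivity)
    have h3 : 1 / ((N:ℝ) + 1) * Q = Q / ((N:ℝ) + 1) := by ring
    change |(∑' k, a n k * (k:ℝ)) - _| ≤ _
    rw [abs_of_nonneg h.1]
    linarith [h.2]
  have htb : ∀ N : ℕ, |mean b - ∑ k ∈ Finset.range (N + 1), b k * (k:ℝ)| ≤ Q / ((N:ℝ) + 1) := by
    intro N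
    have h := tail hb0 hsb (f := fun k => (k:ℝ)) hsb1 (N := N + 1)
      (K := 1 / ((N:ℝ) + 1)) (by positivity) (fun k _ => Nat.cast_nonneg k) (fun k hk => by
        have h1 : ((N:ℝ) + 1) ≤ k := by exact_mod_cast hk
        rw [div_mul_eq_mul_div, one_mul, le_div_iff₀ (by positivity), sq]
        exact mul_le_mul_of_nonneg_left h1 (Nat.cast_nonneg k))
    have h2 : 1 / ((N:ℝ) + 1) * ∑' k, b k * (k:ℝ) ^ 2 ≤ 1 / ((N:ℝ) + 1) * Q :=
      mul_le_mul_of_nonneg_left hqb (by positivity)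
    have h3 : 1 / ((N:ℝ) + 1) * Q = Q / ((N:ℝ) + 1) := by ring
    change |(∑' k, b k * (k:ℝ)) - _| ≤ _
    rw [abs_of_nonneg h.1]
    linarith [h.2]
  rw [Metric.tendsto_atTop]
  intro ε hε
  obtain ⟨N, hN⟩ := exists_nat_gt (3 * Q / ε)
  have hN2 : Q / ((N:ℝ) + 1) < ε / 3 := by
    rw [div_lt_iff₀ hε] at hN
    rw [div_lt_iff₀ (by positivity)]
    nlinarith
  have hfin : Tendsto (fun n => ∑ k ∈ Finset.range (N + 1), a n k * (k:ℝ)) atTop
      (𝓝 (∑ k ∈ Finset.range (N + 1), b k * (k:ℝ))) :=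
    tendsto_finsetSum _ fun k _ => (hab k).mul_const _
  obtain ⟨n0, hn0⟩ := (Metric.tendsto_atTop.1 hfin) (ε / 3) (by positivity)
  refine ⟨n0, fun n hn => ?_⟩
  have h1 := hn0 n hn
  have h2 := hta N n
  have h3 := htb N
  rw [Real.dist_eq] at h1 ⊢
  have e : mean (a n) - mean b = (mean (a n) - ∑ k ∈ Finset.range (N + 1), a n k * (k:ℝ)) +
      (∑ k ∈ Finset.range (N + 1), a n k * (k:ℝ) - ∑ k ∈ Finset.range (N + 1), b k * (k:ℝ)) -
      (mean b - ∑ k ∈ Finset.range (N + 1), b k * (k:ℝ)) := by ring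
  rw [e]
  have h4 := abs_sub (mean (a n) - ∑ k ∈ Finset.range (N + 1), a n k * (k:ℝ) +
      (∑ k ∈ Finset.range (N + 1), a n k * (k:ℝ) - ∑ k ∈ Finset.range (N + 1), b k * (k:ℝ)))
      (mean b - ∑ k ∈ Finset.range (N + 1), b k * (k:ℝ))
  have h5 := abs_add_le (mean (a n) - ∑ k ∈ Finset.range (N + 1), a n k * (k:ℝ))
      (∑ k ∈ Finset.range (N + 1), a n k * (k:ℝ) - ∑ k ∈ Finset.range (N + 1), b k * (k:ℝ))
  linarith

/-! ### WEAK -/

theorem vr_nonneg {a : ℕ → ℝ} (hA : AM a) : 0 ≤ vr a := by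
  have := hA.E_mono (PB.const 0) ((PB.id.sub (PB.const (mean a))).pow 2)
    (fun k => by positivity)
  rwa [hA.toLaw.E_const] at this

/-- one `T` step -/
theorem step_T {C3 C8 D M : ℝ} (hD : 0 < D) (hM : 10 + 8 * D ≤ M)
    (hT : P_TLAW)
    (hTM : ∀ a : ℕ → ℝ, Cls C3 C8 a → M ≤ mean a →
      |mean (T a) - (mean a / 2 - 1 / 8 - 5 / 8 * (vr a / mean a))| ≤ D / mean a ∧
      |vr (T a) - (mean a / 8 + vr a / 8)| ≤ D)
    (hT3 : ∀ a : ℕ → ℝ, Cls C3 C8 a → M ≤ mean a → |k3 (T a)| ≤ C3 * mean (T a))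
    (hT8 : ∀ a : ℕ → ℝ, Cls C3 C8 a → M ≤ mean a → m8 (T a) ≤ C8 * mean (T a) ^ 4)
    {a : ℕ → ℝ} (ha : Cls C3 C8 a) (hm : M ≤ mean a) :
    Cls C3 C8 (T a) ∧ 2 / 5 * mean a ≤ mean (T a) ∧
    |vr (T a) / mean (T a) - (1 / 4 + vr a / mean a / 4)| ≤ (5 * D + 5 / 2) / mean a := by
  obtain ⟨h1, h2⟩ := hTM a ha hm
  set μ := mean a with hμ
  set s := vr a / μ with hs
  have hμ0 : 0 < μ := by linarith
  have hV : vr a = s * μ := by rw [hs]; field_simp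
  have hs0 : 0 ≤ s := div_nonneg (vr_nonneg ha.toAM) hμ0.le
  have hs1 : s ≤ 1 := by
    rw [hs, div_le_one hμ0]
    exact ha.vr_le
  have hDμ : D / μ ≤ D / 10 := div_le_div_of_nonneg_left hD.le (by norm_num) (by linarith)
  have hDμ0 : 0 < D / μ := by positivity
  rw [hV] at h2
  have a1 := abs_le.1 h1
  have a2 := abs_le.1 h2
  have hm1 : 2 / 5 * μ ≤ mean (T a) := by linarith [a1.1]
  have hm10 : 0 < mean (T a) := by linarith
  refine ⟨⟨(hT a ha.toAM).1, ?_, hT3 a ha hm, hT8 a ha hm⟩, hm1, ?_⟩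
  · have : s * μ ≤ μ := by nlinarith
    linarith [a1.1, a2.2]
  · -- the ratio
    set e1 := mean (T a) - (μ / 2 - 1 / 8 - 5 / 8 * s) with he1
    set e2 := vr (T a) - (μ / 8 + s * μ / 8) with he2
    have hmT : mean (T a) = μ / 2 - 1 / 8 - 5 / 8 * s + e1 := by rw [he1]; ring
    have hvT : vr (T a) = μ / 8 + s * μ / 8 + e2 := by rw [he2]; ring
    have key : vr (T a) - (1 / 4 + s / 4) * mean (T a) =
        e2 + (1 / 4 + s / 4) * (1 / 8 + 5 / 8 * s - e1) := by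
      rw [hmT, hvT]; ring
    have hb : |e2 + (1 / 4 + s / 4) * (1 / 8 + 5 / 8 * s - e1)| ≤ 2 * D + 1 := by
      have b1 : |(1 / 4 + s / 4) * (1 / 8 + 5 / 8 * s - e1)| ≤ 1 / 2 * (3 / 4 + D / 10) := by
        rw [abs_mul]
        refine mul_le_mul ?_ ?_ (abs_nonneg _) (by norm_num)
        · rw [abs_of_nonneg (by linarith)]; linarith
        · rw [abs_le]; constructor <;> linarith [a1.1, a1.2]
      have b2 := abs_add_le e2 ((1 / 4 + s / 4) * (1 / 8 + 5 / 8 * s - e1))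
      linarith
    have e3 : vr (T a) / mean (T a) - (1 / 4 + s / 4) =
        (vr (T a) - (1 / 4 + s / 4) * mean (T a)) / mean (T a) := by
      field_simp
    rw [e3, key, abs_div, abs_of_pos hm10, div_le_div_iff₀ hm10 hμ0]
    calc _ ≤ (2 * D + 1) * μ := mul_le_mul_of_nonneg_right hb hμ0.le
      _ ≤ (5 * D + 5 / 2) * mean (T a) := by nlinarith

/-- one `S` step -/
theorem step_S {C3 C8 : ℝ} (hS : P_SLAW) (hSM : P_SM)
    (hS8 : ∀ a : ℕ → ℝ, Cls C3 C8 a → 1 ≤ mean a → m8 (S a) ≤ C8 * mean (S a) ^ 4)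
    {a : ℕ → ℝ} (ha : Cls C3 C8 a) (hm : 1 ≤ mean a) : Cls C3 C8 (S a) := by
  obtain ⟨h1, h2, h3⟩ := hSM a ha.toAM
  refine ⟨(hS a ha.toAM).1, ?_, ?_, hS8 a ha hm⟩
  · rw [h1, h2]; linarith [ha.vr_le]
  · rw [h1, h3, abs_mul, abs_of_pos (by norm_num : (0:ℝ) < 2)]
    linarith [ha.k3_le]

/-- JOB WEAK -/
theorem t_WEAK : P_TLAW → P_SLAW → P_SM → P_TM → P_T3 → P_T8 → P_S8 → P_WEAK := by
  intro hT hS hSM hTM hT3 hT8 hS8
  obtain ⟨B1, hB1, hT8⟩ := hT8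
  obtain ⟨B2, hB2, hS8⟩ := hS8
  set C8 : ℝ := max (max B1 B2) 110000 with hC8
  have c1 : B1 ≤ C8 := (le_max_left _ _).trans (le_max_left _ _)
  have c2 : B2 ≤ C8 := (le_max_right _ _).trans (le_max_left _ _)
  have c3 : 110000 ≤ C8 := le_max_right _ _
  have c4 : 1 ≤ C8 := by linarith
  obtain ⟨B3, hB3, hT3⟩ := hT3 C8 c4
  obtain ⟨M3, hM3, hT3⟩ := hT3 B3 le_rfl
  obtain ⟨M8, hM8, hT8⟩ := hT8 C8 c1 B3 hB3
  obtain ⟨D, MT, hD, hMT, hTM⟩ := hTM B3 C8 hB3 c4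
  have hS8 := hS8 C8 c2 B3
  set M1 : ℝ := max (max M3 M8) (max MT (10 + 8 * D)) with hM1
  have m1 : M3 ≤ M1 := (le_max_left _ _).trans (le_max_left _ _)
  have m2 : M8 ≤ M1 := (le_max_right _ _).trans (le_max_left _ _)
  have m3 : MT ≤ M1 := (le_max_left _ _).trans (le_max_right _ _)
  have m4 : 10 + 8 * D ≤ M1 := (le_max_right _ _).trans (le_max_right _ _)
  have hst : ∀ {a : ℕ → ℝ}, Cls B3 C8 a → M1 ≤ mean a → _ := fun {a} ha hm =>
    step_T hD m4 hT (fun a ha hm => hTM a ha (m3.trans hm))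
      (fun a ha hm => hT3 a ha (m1.trans hm)) (fun a ha hm => hT8 a ha (m2.trans hm)) (a := a) ha hm
  refine ⟨B3, C8, 3 * M1, 58 * D + 24, hB3, c3, by linarith, by positivity, fun a ha hm => ?_⟩
  have hm' : M1 ≤ mean a := by linarith
  obtain ⟨k1, k2, k3⟩ := hst ha hm'
  have hm1 : M1 ≤ mean (T a) := by linarith
  obtain ⟨l1, l2, l3⟩ := hst k1 hm1
  have hm2 : 1 ≤ mean (T (T a)) := by linarith
  have hS1 := step_S hS hSM hS8 l1 hm2
  obtain ⟨u1, u2, -⟩ := hSM _ l1.toAM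
  have hm3 : 1 ≤ mean (S (T (T a))) := by rw [u1]; linarith
  have hS2 := step_S hS hSM hS8 hS1 hm3
  obtain ⟨v1, v2, -⟩ := hSM _ hS1.toAM
  refine ⟨hS2, ?_⟩
  have eR : mean (R a) = 4 * mean (T (T a)) := by
    change mean (S (S (T (T a)))) = _
    rw [v1, u1]; ring
  have eV : vr (R a) = 4 * vr (T (T a)) := by
    change vr (S (S (T (T a)))) = _
    rw [v2, u2]; ring
  have hm20 : 0 < mean (T (T a)) := by linarith
  have eq2 : vr (R a) / mean (R a) = vr (T (T a)) / mean (T (T a)) := by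
    rw [eR, eV]; field_simp
  rw [eq2, eR]
  -- notation
  have t1 := (hTM a ha (m3.trans hm')).1
  have t2 := (hTM (T a) k1 (m3.trans hm1)).1
  set μ := mean a
  set μ1 := mean (T a)
  set μ2 := mean (T (T a))
  set s := vr a / μ
  set s1 := vr (T a) / μ1
  set s2 := vr (T (T a)) / μ2
  have hμ0 : 0 < μ := by linarith
  have hμ10 : 0 < μ1 := by linarith
  have d1 : D / μ1 ≤ 5 / 2 * (D / μ) := by
    rw [div_le_iff₀ hμ10]
    have : 5 / 2 * (D / μ) * μ1 = (D / μ) * (5 / 2 * μ1) := by ring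
    rw [this]
    have h : (D / μ) * μ ≤ (D / μ) * (5 / 2 * μ1) :=
      mul_le_mul_of_nonneg_left (by linarith) (by positivity)
    rwa [div_mul_cancel₀ _ hμ0.ne'] at h
  have d2 : (5 * D + 5 / 2) / μ1 ≤ 5 / 2 * ((5 * D + 5 / 2) / μ) := by
    rw [div_le_iff₀ hμ10]
    have : 5 / 2 * ((5 * D + 5 / 2) / μ) * μ1 = ((5 * D + 5 / 2) / μ) * (5 / 2 * μ1) := by ring
    rw [this]
    have h : ((5 * D + 5 / 2) / μ) * μ ≤ ((5 * D + 5 / 2) / μ) * (5 / 2 * μ1) :=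
      mul_le_mul_of_nonneg_left (by linarith) (by positivity)
    rwa [div_mul_cancel₀ _ hμ0.ne'] at h
  have e1 : (5 * D + 5 / 2) / μ = 5 * (D / μ) + 5 / 2 * (1 / μ) := by ring
  have e2 : (58 * D + 24) / μ = 58 * (D / μ) + 24 * (1 / μ) := by ring
  have p1 : 0 < D / μ := by positivity
  have p2 : 0 < 1 / μ := by positivity
  rw [e1] at k3 d2
  rw [e2]
  have a1 := abs_le.1 t1
  have a2 := abs_le.1 t2
  have a3 := abs_le.1 k3
  have a4 := abs_le.1 l3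
  rw [abs_le]
  constructor
  · linarith [a1.1, a1.2, a2.1, a2.2, a3.1, a3.2, a4.1, a4.2]
  · linarith [a1.1, a1.2, a2.1, a2.2, a3.1, a3.2, a4.1, a4.2]

end Pool.Agent.Q150.MK
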