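import Pool.Agent.Q291.MK.Stm

/-! # Project MK (helper291), job WL: the Wilson loop -/

namespace Pool.Agent.Q150.MK

open Pool.Agent.Q291.MK

/-- the factor `k / (k + 3)` -/
noncomputable def w (k : ℕ) : ℝ := (k : ℝ) / (k + 3)

theorem w_nonneg (k : ℕ) : 0 ≤ w k := by unfold w; positivity

theorem w_lt_one (k : ℕ) : w k < 1 := by
  unfold w
  have : (0 : ℝ) ≤ k := Nat.cast_nonneg k
  rw [div_lt_one (by positivity)]
  linarith

theorem w_mono : Monotone w := by
  intro k l h
  unfold w
  have h1 : (k : ℝ) ≤ l := by exact_mod_cast h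
  have h0 : (0 : ℝ) ≤ k := Nat.cast_nonneg k
  have h2 : (0 : ℝ) ≤ l := Nat.cast_nonneg l
  rw [div_le_div_iff₀ (by positivity) (by positivity)]
  nlinarith

theorem w_le (k : ℕ) : w k ≤ (1 / 3) * k := by
  unfold w
  have h0 : (0 : ℝ) ≤ k := Nat.cast_nonneg k
  rw [div_le_iff₀ (by positivity)]
  nlinarith

theorem w_pos {k : ℕ} (hk : 1 ≤ k) : 0 < w k := by
  unfold w
  have : (0 : ℝ) < k := by exact_mod_cast hk
  positivity

theorem PB_w : PB w := (PB.const 1).of_le fun k => by
  rw [abs_of_nonneg (w_nonneg k)]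
  exact (w_lt_one k).le

theorem ratio_mono (K : ℕ) : Monotone fun L => I (K + L) / I L := by
  refine monotone_nat_of_le_succ fun L => ?_
  have hI := I_pos L
  have hI2 := I_pos (K + L)
  have h0 : (0 : ℝ) ≤ L := Nat.cast_nonneg L
  have h1 : (0 : ℝ) ≤ K := Nat.cast_nonneg K
  have e1 : I (K + (L + 1)) = I (K + L) * ((2 * ((K : ℝ) + L) + 3) / (2 * ((K : ℝ) + L) + 6)) := by
    rw [← add_assoc, I_succ]
    push_cast
    ring
  change I (K + L) / I L ≤ I (K + (L + 1)) / I (L + 1)
  rw [e1, I_succ, div_le_div_iff₀ hI (by positivity)]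
  have h2 : ((2 * (L : ℝ) + 3) / (2 * L + 6)) ≤ (2 * ((K : ℝ) + L) + 3) / (2 * ((K : ℝ) + L) + 6) := by
    rw [div_le_div_iff₀ (by positivity) (by positivity)]
    nlinarith
  calc I (K + L) * (I L * ((2 * (L : ℝ) + 3) / (2 * L + 6)))
      = (I (K + L) * I L) * ((2 * (L : ℝ) + 3) / (2 * L + 6)) := by ring
    _ ≤ (I (K + L) * I L) * ((2 * ((K : ℝ) + L) + 3) / (2 * ((K : ℝ) + L) + 6)) :=
        mul_le_mul_of_nonneg_left h2 (by positivity)
    _ = _ := by ring

theorem ratio_le (K : ℕ) {L L' : ℕ} (h : L' ≤ L) : I (K + L') * I L ≤ I (K + L) * I L' := by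
  have := ratio_mono K h
  change I (K + L') / I L' ≤ I (K + L) / I L at this
  rwa [div_le_div_iff₀ (I_pos _) (I_pos _)] at this

theorem PB_shift (K : ℕ) : PB (fun L => I (K + L)) := (PB.const 1).of_le fun k => by
  rw [abs_of_pos (I_pos _)]
  exact I_le_one _

/-- Chebyshev for the weights `a L * I L` -/
theorem cheb {a : ℕ → ℝ} (hA : AM a) (K : ℕ) :
    E a (fun L => I (K + L)) * E a (fun L => I L * w L) ≤
      E a (fun L => I (K + L) * w L) * E a I := by
  have p1 := PB_shift K
  have p2 := PB.I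
  have h : 0 ≤ E2 a (fun L L' => (I (K + L) * I L' - I (K + L') * I L) * (w L - w L')) := by
    have h1 := hA.E2_mono (PB2.const 0) (φ := fun _ _ => 0)
      (ψ := fun L L' => (I (K + L) * I L' - I (K + L') * I L) * (w L - w L'))
      ((((PB2.fst p1).mul (PB2.snd p2)).sub ((PB2.snd p1).mul (PB2.fst p2))).mul
        ((PB2.fst PB_w).sub (PB2.snd PB_w))) (fun L L' => by
        rcases le_total L' L with h | h
        · exact mul_nonneg (sub_nonneg.2 (ratio_le K h)) (sub_nonneg.2 (w_mono h))
        · exact mul_nonneg_of_nonpos_of_nonpos (sub_nonpos.2 (ratio_le K h))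
            (sub_nonpos.2 (w_mono h)))
    rwa [hA.E2_cst] at h1
  have e : E2 a (fun L L' => (I (K + L) * I L' - I (K + L') * I L) * (w L - w L')) =
      2 * (E a (fun L => I (K + L) * w L) * E a I -
        E a (fun L => I (K + L)) * E a (fun L => I L * w L)) := by
    have e1 : (fun L L' : ℕ => (I (K + L) * I L' - I (K + L') * I L) * (w L - w L')) =
        fun L L' => ((I (K + L) * w L) * I L' + I L * (I (K + L') * w L')) -
          (I (K + L) * (I L' * w L') + (I L * w L) * I (K + L')) := by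
      funext L L'
      ring
    have q1 := p1.mul PB_w
    have q2 := p2.mul PB_w
    rw [e1, hA.E2_sub (((PB2.fst q1).mul (PB2.snd p2)).add ((PB2.fst p2).mul (PB2.snd q1)))
      (((PB2.fst p1).mul (PB2.snd q2)).add ((PB2.fst q2).mul (PB2.snd p1))),
      hA.E2_add ((PB2.fst q1).mul (PB2.snd p2)) ((PB2.fst p2).mul (PB2.snd q1)),
      hA.E2_add ((PB2.fst p1).mul (PB2.snd q2)) ((PB2.fst q2).mul (PB2.snd p1)),
      hA.E2_mul q1 p2, hA.E2_mul p2 q1, hA.E2_mul p1 q2, hA.E2_mul q2 p1]
    change E a (fun k => I (K + k) * w k) * E a I + E a I * E a (fun k => I (K + k) * w k) - _ = _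
    ring
  rw [e] at h
  linarith

/-- Fubini -/
theorem E2_iter {a : ℕ → ℝ} (hA : AM a) {φ : ℕ → ℕ → ℝ} (h : PB2 φ) :
    E2 a φ = ∑' K, a K * E a (fun L => φ K L) := by
  unfold E2 E
  rw [(hA.summ2 h).tsum_prod]
  refine tsum_congr fun K => ?_
  rw [← tsum_mul_left]
  exact tsum_congr fun L => by ring

/-- the slices are summable -/
theorem summ_iter {a : ℕ → ℝ} (hA : AM a) {φ : ℕ → ℕ → ℝ} (h : PB2 φ) :
    Summable fun K => a K * E a (fun L => φ K L) := by
  have h1 := (hA.summ2 h).prod
  refine h1.congr fun K => ?_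
  unfold E
  rw [← tsum_mul_left]
  exact tsum_congr fun L => by ring

/-- JOB WL -/
theorem t_WL : P_HYP1 → P_TLAW → P_SLAW → P_CHEB → P_HI → P_WL := by
  intro _ hT hS hC hH a hA
  have p2 := PB.I
  have q2 := p2.mul PB_w
  have hWdef : W a = E a (fun k => I k * w k) / E a I := rfl
  have hEI : 0 < E a I := by
    obtain ⟨k, hk⟩ := hA.toLaw.mass_pos
    exact (hA.summ p2).tsum_pos (fun k => mul_nonneg (hA.nn k) (I_pos k).le) k
      (mul_pos hk (I_pos k))
  have hEw0 : 0 ≤ E a (fun k => I k * w k) :=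
    tsum_nonneg fun k => mul_nonneg (hA.nn k) (mul_nonneg (I_pos k).le (w_nonneg k))
  have hlt : E a (fun k => I k * w k) < E a I := by
    obtain ⟨k, hk⟩ := hA.toLaw.mass_pos
    refine Summable.tsum_lt_tsum (i := k) (fun j => ?_) ?_ (hA.summ q2) (hA.summ p2)
    · refine mul_le_mul_of_nonneg_left ?_ (hA.nn j)
      have := (w_lt_one j).le
      have := (I_pos j).le
      nlinarith
    · refine mul_lt_mul_of_pos_left ?_ hk
      have := w_lt_one k
      have := I_pos k
      nlinarith
  refine ⟨?_, ?_, ?_, ?_, ?_, ?_⟩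
  · rw [hWdef]
    exact div_nonneg hEw0 hEI.le
  · rw [hWdef, div_lt_one hEI]
    exact hlt
  · rw [hWdef, div_le_iff₀ hEI]
    have h1 := (hC a hA).1 w PB_w w_mono
    have h2 : E a w ≤ mean a / 3 := by
      have h3 := hA.E_mono PB_w ((PB.const (1 / 3)).mul PB.id) w_le
      rw [E_const_mul] at h3
      have h4 : E a (fun k => (k : ℝ)) = mean a := rfl
      rw [h4] at h3
      linarith
    have h5 : E a I * E a w ≤ E a I * (mean a / 3) := mul_le_mul_of_nonneg_left h2 hEI.le
    linarith
  · obtain ⟨-, h1⟩ := hT a hA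
    have hZ := hA.Z_pos
    have e1 : E (T a) I = (E a I) ^ 2 / E2 a (fun K L => I (K + L)) := by
      rw [(h1 I p2).2]
      unfold Ew
      congr 1
      have : (fun K L : ℕ => I (K + L) * H K L I) = fun K L => I K * I L := by
        funext K L
        exact (hH K L).1
      rw [this, hA.E2_mul p2 p2]
      change E a I * E a I = _
      ring
    have e2 : E (T a) (fun k => I k * w k) =
        (E a (fun k => I k * w k)) ^ 2 / E2 a (fun K L => I (K + L)) := by
      rw [(h1 _ q2).2]
      unfold Ew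
      congr 1
      have : (fun K L : ℕ => I (K + L) * H K L (fun k => I k * w k)) =
          fun K L => (I K * w K) * (I L * w L) := by
        funext K L
        exact (hH K L).2
      rw [this, hA.E2_mul q2 q2]
      ring
    have hWT : W (T a) = E (T a) (fun k => I k * w k) / E (T a) I := rfl
    rw [hWT, e1, e2, hWdef]
    field_simp
  · obtain ⟨-, h1⟩ := hS a hA
    have hZ := hA.Z_pos
    have hWS : W (S a) = E (S a) (fun k => I k * w k) / E (S a) I := rfl
    rw [hWS, (h1 I p2).2, (h1 _ q2).2, hWdef, div_le_div_iff₀ hEI hZ]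
    -- the three double sums
    have b1 : PB2 (fun K L => I (K + L)) := PB2.I
    have b2 : PB2 (fun K L => I (K + L) * w L) := b1.mul (PB2.snd PB_w)
    have b3 : PB2 (fun K L => I (K + L) * w (K + L)) := (PB2.const 1).of_le fun K L => by
      rw [abs_of_nonneg (mul_nonneg (I_pos _).le (w_nonneg _))]
      have := I_le_one (K + L)
      have := (I_pos (K + L)).le
      have := (w_lt_one (K + L)).le
      have := w_nonneg (K + L)
      nlinarith
    have h2 : E2 a (fun K L => I (K + L)) * E a (fun k => I k * w k) ≤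
        E2 a (fun K L => I (K + L) * w L) * E a I := by
      rw [E2_iter hA b1, E2_iter hA b2, ← tsum_mul_right, ← tsum_mul_right]
      refine Summable.tsum_le_tsum (fun K => ?_) ((summ_iter hA b1).mul_right _)
        ((summ_iter hA b2).mul_right _)
      rw [mul_assoc, mul_assoc]
      exact mul_le_mul_of_nonneg_left (cheb hA K) (hA.nn K)
    have h3 : E2 a (fun K L => I (K + L) * w L) ≤ E2 a (fun K L => I (K + L) * w (K + L)) :=
      hA.E2_mono b2 b3 fun K L => mul_le_mul_of_nonneg_left (w_mono (Nat.le_add_left _ _))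
        (I_pos _).le
    calc E a (fun k => I k * w k) * E2 a (fun K L => I (K + L))
        = E2 a (fun K L => I (K + L)) * E a (fun k => I k * w k) := mul_comm _ _
      _ ≤ E2 a (fun K L => I (K + L) * w L) * E a I := h2
      _ ≤ _ := mul_le_mul_of_nonneg_right h3 hEI.le
  · intro h0
    rw [hWdef]
    refine div_pos ?_ hEI
    have : ∃ k, 1 ≤ k ∧ 0 < a k := by
      by_contra hcon
      push Not at hcon
      have h1 : ∀ k, k ≠ 0 → a k = 0 := fun k hk =>
        le_antisymm (hcon k (Nat.one_le_iff_ne_zero.2 hk)) (hA.nn k)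
      have h2 : HasSum a (a 0) := hasSum_single 0 h1
      have h3 := h2.unique hA.one
      linarith
    obtain ⟨k, hk, hak⟩ := this
    exact (hA.summ q2).tsum_pos (fun k => mul_nonneg (hA.nn k)
      (mul_nonneg (I_pos k).le (w_nonneg k))) k (mul_pos hak (mul_pos (I_pos k) (w_pos hk)))

end Pool.Agent.Q150.MK
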