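import Pool.Agent.Q291.MK.Stm9

/-! # Project MK, job ONE (helper150): conditional expectations for nearly constant densities -/

set_option autoImplicit false

namespace Pool.Agent.Q150.MK

open Pool.Agent.Q291.MK Filter Topology MeasureTheory Quaternion

theorem one_integ {f : G → ℝ} (hf : Continuous f) : Integrable f haar :=
  Pool.Agent.Q149.MK.integ hf

theorem one_conv_bd {f g : G → ℝ} (hf : Continuous f) (hg : Continuous g) {a b : ℝ}
    (ha : 0 ≤ a) (hb : 0 ≤ b) (h1 : ∀ x, a ≤ f x ∧ f x ≤ 1) (h2 : ∀ x, b ≤ g x ∧ g x ≤ 1)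
    (x : G) : a * b ≤ conv f g x ∧ conv f g x ≤ 1 := by
  have hc : Continuous fun y : G => f y * g (y⁻¹ * x) :=
    Pool.Agent.Q280.MK.conv_integrand_cont hf hg x
  unfold conv
  constructor
  · have := integral_mono (μ := haar) (integrable_const (a * b)) (one_integ hc)
      (fun y => mul_le_mul (h1 y).1 (h2 _).1 hb (ha.trans (h1 y).1))
    simpa using this
  · have := integral_mono (μ := haar) (one_integ hc) (integrable_const (1 : ℝ))
      (fun y => mul_le_one₀ (h1 y).2 (hb.trans (h2 _).1) (h2 _).2)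
    simpa using this

theorem t_ONE : (P_AV → P_ONE) ∧ P_RE0 := by
  constructor
  · intro hAV f hf hf0 hfp φ ε hφ hφ1 hε hfe x
    have hQ := hAV f hf hf0 hfp φ (-1) 1 hφ (fun x => abs_le.1 (hφ1 x)) x
    have hI1 : |∫ y, φ y ∂haar| ≤ 1 := by
      have h1 := norm_integral_le_of_norm_le_const (μ := haar) (f := φ) (C := 1)
        (Filter.Eventually.of_forall fun y => by rw [Real.norm_eq_abs]; exact hφ1 y)
      simpa using h1
    by_cases h8 : ε ≤ 1 / 8
    · set g := conv f (conv f f) with hg
      have hcff : Continuous (conv f f) := Pool.Agent.Q280.MK.conv_cont hf hf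
      have hgc : Continuous g := Pool.Agent.Q280.MK.conv_cont hf hcff
      have he : 0 ≤ 1 - ε := by linarith
      have hff := one_conv_bd hf hf he he hfe hfe
      have hgb : ∀ x, (1 - ε) * ((1 - ε) * (1 - ε)) ≤ g x ∧ g x ≤ 1 := fun x =>
        one_conv_bd hf hcff he (mul_nonneg he he) hfe hff x
      have hD := one_conv_bd hf hgc he (by positivity) hfe hgb x
      -- the density
      set w : G → ℝ := fun y => f y * g (y⁻¹ * x) with hw
      have hwc : Continuous w := Pool.Agent.Q280.MK.conv_integrand_cont hf hgc x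
      have hpow : 1 - 4 * ε ≤ (1 - ε) * ((1 - ε) * ((1 - ε) * (1 - ε))) := by
        nlinarith [sq_nonneg ε, sq_nonneg (ε * ε), mul_nonneg hε hε, mul_nonneg (mul_nonneg hε hε) hε]
      have hw1 : ∀ y, 1 - 4 * ε ≤ w y ∧ w y ≤ 1 := fun y => by
        refine ⟨hpow.trans (mul_le_mul (hfe y).1 (hgb _).1 (by positivity) (he.trans (hfe y).1)),
          mul_le_one₀ (hfe y).2 (le_trans (by positivity) (hgb _).1) (hgb _).2⟩
      have hDe : conv f g x = ∫ y, w y ∂haar := rfl
      have hNe : conv (fun y => φ y * f y) g x = ∫ y, φ y * w y ∂haar := by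
        unfold conv; congr 1; funext y; simp only [hw]; ring
      have hQe : Qop f φ x = (∫ y, φ y * w y ∂haar) / ∫ y, w y ∂haar := by
        unfold Qop
        rw [← hg, hNe, hDe]
      have hDl : 1 - 4 * ε ≤ ∫ y, w y ∂haar := by rw [← hDe]; exact hpow.trans hD.1
      have hDu : ∫ y, w y ∂haar ≤ 1 := by rw [← hDe]; exact hD.2
      have hND : |(∫ y, φ y * w y ∂haar) - ∫ y, φ y ∂haar| ≤ 4 * ε := by
        have hsub : (∫ y, φ y * w y ∂haar) - ∫ y, φ y ∂haar = ∫ y, (φ y * w y - φ y) ∂haar :=
          (integral_sub (one_integ (hφ.mul hwc)) (one_integ hφ)).symm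
        rw [hsub]
        have h1 := norm_integral_le_of_norm_le_const (μ := haar)
          (f := fun y => φ y * w y - φ y) (C := 4 * ε)
          (Filter.Eventually.of_forall fun y => by
            rw [Real.norm_eq_abs, show φ y * w y - φ y = φ y * (w y - 1) by ring, abs_mul]
            have h3 : |w y - 1| ≤ 4 * ε := by
              rw [abs_le]; constructor <;> linarith [(hw1 y).1, (hw1 y).2]
            calc |φ y| * |w y - 1| ≤ 1 * (4 * ε) :=
                  mul_le_mul (hφ1 y) h3 (abs_nonneg _) zero_le_one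
              _ = 4 * ε := one_mul _)
        simpa using h1
      rw [hQe]
      set N := ∫ y, φ y * w y ∂haar
      set D := ∫ y, w y ∂haar
      set m := ∫ y, φ y ∂haar
      have hD0 : 1 / 2 ≤ D := by linarith
      have hDp : 0 < D := by linarith
      have e : N / D - m = ((N - m) + m * (1 - D)) / D := by
        field_simp; ring
      rw [e, abs_div, abs_of_pos hDp, div_le_iff₀ hDp]
      have h5 : |m * (1 - D)| ≤ 4 * ε := by
        rw [abs_mul, abs_of_nonneg (by linarith : (0:ℝ) ≤ 1 - D)]
        calc |m| * (1 - D) ≤ 1 * (1 - D) := mul_le_mul_of_nonneg_right hI1 (by linarith)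
          _ ≤ 4 * ε := by linarith
      calc |(N - m) + m * (1 - D)| ≤ |N - m| + |m * (1 - D)| := abs_add_le _ _
        _ ≤ 4 * ε + 4 * ε := add_le_add hND h5
        _ ≤ 16 * ε * D := by nlinarith
    · push Not at h8
      rw [abs_le] at hI1 ⊢
      constructor <;> linarith [hQ.1, hQ.2, hI1.1, hI1.2]
  · have h := Pool.Agent.Q149.MK.odd_moment 0
    simpa [P_RE0] using h

end Pool.Agent.Q150.MK
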